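import Mathlib

/-!
# Branching annihilating random walk on the integers
-/

open MeasureTheory

namespace Pool.Agent.Helper95.BR

/-- The sites within distance `R` of the set `S`. -/
noncomputable def nbhd (R : ℕ) (S : Finset ℤ) : Finset ℤ := S.biUnion fun y => Finset.Icc (y - R) (y + R)

/-- The density of `S` in the box of radius `R` around `x`. -/
noncomputable def dens (R : ℕ) (S : Finset ℤ) (x : ℤ) : ℝ :=
  ((S ∩ Finset.Icc (x - R) (x + R)).card : ℝ) / (2 * R + 1)

/-- The probability that `x` is occupied at the next time if `S` is the present configuration. -/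
noncomputable def occ (μ : ℝ) (R : ℕ) (S : Finset ℤ) (x : ℤ) : ℝ :=
  μ * dens R S x * Real.exp (-(μ * dens R S x))

/-- The probability that the next configuration is `T` if the present one is `S`: the sites are
occupied independently, `x` with probability `occ μ R S x`, which is `0` outside `nbhd R S`. -/
noncomputable def trans (μ : ℝ) (R : ℕ) (S T : Finset ℤ) : ℝ :=
  if T ⊆ nbhd R S then (∏ x ∈ T, occ μ R S x) * ∏ x ∈ nbhd R S \ T, (1 - occ μ R S x) else 0

/-- `η` is a branching annihilating random walk on `ℤ` with range `R` and mean `μ`, started from a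
single particle at the origin. -/
structure IsBARW {Ω : Type*} [MeasurableSpace Ω] (P : Measure Ω) (μ : ℝ) (R : ℕ)
    (η : ℕ → Ω → Finset ℤ) : Prop where
  meas : ∀ n S, MeasurableSet {ω | η n ω = S}
  start : P {ω | η 0 ω = {0}} = 1
  markov : ∀ (n : ℕ) (s : ℕ → Finset ℤ), P {ω | ∀ i ≤ n + 1, η i ω = s i} =
    P {ω | ∀ i ≤ n, η i ω = s i} * ENNReal.ofReal (trans μ R (s n) (s (n + 1)))

end Pool.Agent.Helper95.BR
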