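import Mathlib
import Pool.Agent.Helper95.BR.Defs

/-! # Finite sums -/

namespace Pool.Agent.Helper95.BR

open Finset

/-- weight of `T` -/
noncomputable def W (N : Finset ℤ) (p : ℤ → ℝ) (T : Finset ℤ) : ℝ :=
  (∏ x ∈ T, p x) * ∏ x ∈ N \ T, (1 - p x)

theorem W_nonneg {N : Finset ℤ} {p : ℤ → ℝ} (h0 : ∀ x, 0 ≤ p x) (h1 : ∀ x, p x ≤ 1)
    (T : Finset ℤ) : 0 ≤ W N p T :=
  mul_nonneg (prod_nonneg fun x _ => h0 x) (prod_nonneg fun x _ => by linarith [h1 x])

theorem avoid (N : Finset ℤ) (p : ℤ → ℝ) (A : Finset ℤ) :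
    ∑ T ∈ N.powerset, W N p T * (if Disjoint T A then (1 : ℝ) else 0) =
      ∏ x ∈ N ∩ A, (1 - p x) := by
  have h := Finset.prod_add (fun x => if x ∈ A then (0 : ℝ) else p x) (fun x => 1 - p x) N
  have e1 : ∀ T : Finset ℤ, W N p T * (if Disjoint T A then (1 : ℝ) else 0) =
      (∏ x ∈ T, if x ∈ A then (0 : ℝ) else p x) * ∏ x ∈ N \ T, (1 - p x) := by
    intro T
    by_cases hd : Disjoint T A
    · rw [if_pos hd, mul_one, W]
      congr 1
      apply prod_congr rfl
      intro x hx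
      rw [if_neg (Finset.disjoint_left.1 hd hx)]
    · rw [if_neg hd, mul_zero]
      obtain ⟨x, hx, hxA⟩ := Finset.not_disjoint_iff.1 hd
      rw [prod_eq_zero hx (by rw [if_pos hxA]), zero_mul]
  rw [sum_congr rfl fun T _ => e1 T, ← h, ← Finset.prod_ite_mem]
  apply prod_congr rfl
  intro x _
  by_cases hx : x ∈ A <;> simp [hx]

theorem total (N : Finset ℤ) (p : ℤ → ℝ) : ∑ T ∈ N.powerset, W N p T = 1 := by
  have := avoid N p ∅
  simpa using this

theorem hit (N : Finset ℤ) (p : ℤ → ℝ) (A : Finset ℤ) :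
    ∑ T ∈ N.powerset, W N p T * (if Disjoint T A then (0 : ℝ) else 1) =
      1 - ∏ x ∈ N ∩ A, (1 - p x) := by
  have h1 := avoid N p A
  have h2 := total N p
  have h3 : ∑ T ∈ N.powerset, W N p T * (if Disjoint T A then (0 : ℝ) else 1) +
      ∑ T ∈ N.powerset, W N p T * (if Disjoint T A then (1 : ℝ) else 0) =
      ∑ T ∈ N.powerset, W N p T := by
    rw [← sum_add_distrib]
    apply sum_congr rfl
    intro T _
    split_ifs
    · simp
    · simp
  linarith

theorem mean_card (N : Finset ℤ) (p : ℤ → ℝ) :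
    ∑ T ∈ N.powerset, W N p T * (T.card : ℝ) = ∑ x ∈ N, p x := by
  have e : ∀ T ∈ N.powerset, W N p T * (T.card : ℝ) =
      ∑ x ∈ N, W N p T * (if Disjoint T {x} then (0 : ℝ) else 1) := by
    intro T hT
    rw [← mul_sum]
    congr 1
    have : ∀ x ∈ N, (if Disjoint T {x} then (0 : ℝ) else 1) = if x ∈ T then 1 else 0 := by
      intro x _
      by_cases hx : x ∈ T <;> simp [hx]
    rw [sum_congr rfl this, Finset.sum_ite_mem, Finset.inter_eq_right.2 (mem_powerset.1 hT)]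
    simp
  rw [sum_congr rfl e, sum_comm]
  apply sum_congr rfl
  intro x hx
  rw [hit, Finset.inter_singleton_of_mem hx]
  simp

theorem mean_nbhd (N : Finset ℤ) (p : ℤ → ℝ) (R : ℕ) :
    ∑ T ∈ N.powerset, W N p T * ((nbhd R T).card : ℝ) =
      ∑ y ∈ nbhd R N, (1 - ∏ x ∈ N ∩ Icc (y - (R : ℤ)) (y + R), (1 - p x)) := by
  have e : ∀ T ∈ N.powerset, W N p T * ((nbhd R T).card : ℝ) =
      ∑ y ∈ nbhd R N, W N p T * (if Disjoint T (Icc (y - (R : ℤ)) (y + R)) then (0 : ℝ) else 1) := by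
    intro T hT
    rw [← mul_sum]
    congr 1
    have hiff : ∀ y, y ∈ nbhd R T ↔ ¬ Disjoint T (Icc (y - (R : ℤ)) (y + R)) := by
      intro y
      rw [Finset.not_disjoint_iff, nbhd, Finset.mem_biUnion]
      constructor
      · rintro ⟨a, ha, hy⟩
        rw [Finset.mem_Icc] at hy
        exact ⟨a, ha, Finset.mem_Icc.2 ⟨by omega, by omega⟩⟩
      · rintro ⟨a, ha, hy⟩
        rw [Finset.mem_Icc] at hy
        exact ⟨a, ha, Finset.mem_Icc.2 ⟨by omega, by omega⟩⟩
    have : ∀ y ∈ nbhd R N, (if Disjoint T (Icc (y - (R : ℤ)) (y + R)) then (0 : ℝ) else 1) =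
        if y ∈ nbhd R T then 1 else 0 := by
      intro y _
      by_cases hx : Disjoint T (Icc (y - (R : ℤ)) (y + R))
      · rw [if_pos hx, if_neg (by rw [hiff]; exact not_not.2 hx)]
      · rw [if_neg hx, if_pos ((hiff y).2 hx)]
    have hsub : nbhd R T ⊆ nbhd R N := Finset.biUnion_subset_biUnion_of_subset_left _
      (mem_powerset.1 hT)
    rw [sum_congr rfl this, Finset.sum_ite_mem, Finset.inter_eq_right.2 hsub]
    simp
  rw [sum_congr rfl e, sum_comm]
  apply sum_congr rfl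
  intro y _
  rw [hit]

/-- maximal one-site probability -/
noncomputable def z : ℝ := Real.exp (-1)

theorem occ_nonneg {μ : ℝ} (hμ : 0 < μ) (R : ℕ) (S : Finset ℤ) (x : ℤ) : 0 ≤ occ μ R S x := by
  have : 0 ≤ dens R S x := by unfold dens; positivity
  unfold occ
  positivity

theorem occ_le (μ : ℝ) (R : ℕ) (S : Finset ℤ) (x : ℤ) : occ μ R S x ≤ z := by
  unfold occ z
  have h := Real.add_one_le_exp (μ * dens R S x - 1)
  have h2 : μ * dens R S x ≤ Real.exp (μ * dens R S x - 1) := by linarith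
  calc μ * dens R S x * Real.exp (-(μ * dens R S x))
      ≤ Real.exp (μ * dens R S x - 1) * Real.exp (-(μ * dens R S x)) :=
        mul_le_mul_of_nonneg_right h2 (Real.exp_pos _).le
    _ = Real.exp (-1) := by rw [← Real.exp_add]; ring_nf

theorem z_pos : 0 < z := Real.exp_pos _

theorem z_lt : z < 0.3679 := by
  unfold z
  rw [Real.exp_neg]
  have h := Real.exp_one_gt_d9
  rw [inv_lt_comm₀ (Real.exp_pos _) (by norm_num)]
  refine lt_trans ?_ h
  norm_num

/-- The contribution of one particle. -/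
theorem five (s : ℤ) (Y : Finset ℤ) :
    ∑ y ∈ Y, (1 - (1 - z) ^ (Icc (s - ((1 : ℕ) : ℤ)) (s + ((1 : ℕ) : ℤ)) ∩
      Icc (y - ((1 : ℕ) : ℤ)) (y + ((1 : ℕ) : ℤ))).card) ≤ 9 * z - 5 * z ^ 2 + z ^ 3 := by
  have hz0 := z_pos
  have hz1 := z_lt
  set g : ℤ → ℝ := fun y => 1 - (1 - z) ^ (Icc (s - ((1 : ℕ) : ℤ)) (s + ((1 : ℕ) : ℤ)) ∩
      Icc (y - ((1 : ℕ) : ℤ)) (y + ((1 : ℕ) : ℤ))).card with hg
  have hg0 : ∀ y, 0 ≤ g y := by
    intro y
    have : (1 - z) ^ (Icc (s - ((1 : ℕ) : ℤ)) (s + ((1 : ℕ) : ℤ)) ∩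
      Icc (y - ((1 : ℕ) : ℤ)) (y + ((1 : ℕ) : ℤ))).card ≤ 1 :=
      pow_le_one₀ (by linarith) (by linarith)
    simp only [hg]; linarith
  have hgz : ∀ y, y ∉ Icc (s - 2) (s + 2) → g y = 0 := by
    intro y hy
    have : Icc (s - ((1 : ℕ) : ℤ)) (s + ((1 : ℕ) : ℤ)) ∩
      Icc (y - ((1 : ℕ) : ℤ)) (y + ((1 : ℕ) : ℤ)) = ∅ := by
      ext a
      rw [mem_Icc] at hy
      simp only [mem_inter, mem_Icc, notMem_empty, iff_false]
      push_cast
      omega
    simp only [hg, this, card_empty, pow_zero, sub_self]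
  have hcard : ∀ i : ℤ, g (s + i) = 1 - (1 - z) ^ (3 - i.natAbs) := by
    intro i
    simp only [hg]
    congr 2
    by_cases hi : 0 ≤ i
    · have : Icc (s - ((1 : ℕ) : ℤ)) (s + ((1 : ℕ) : ℤ)) ∩
          Icc (s + i - ((1 : ℕ) : ℤ)) (s + i + ((1 : ℕ) : ℤ)) = Icc (s + i - 1) (s + 1) := by
        ext a
        simp only [mem_inter, mem_Icc]
        push_cast
        omega
      rw [this, Int.card_Icc]
      omega
    · have : Icc (s - ((1 : ℕ) : ℤ)) (s + ((1 : ℕ) : ℤ)) ∩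
          Icc (s + i - ((1 : ℕ) : ℤ)) (s + i + ((1 : ℕ) : ℤ)) = Icc (s - 1) (s + i + 1) := by
        ext a
        simp only [mem_inter, mem_Icc]
        push_cast
        omega
      rw [this, Int.card_Icc]
      omega
  calc ∑ y ∈ Y, g y ≤ ∑ y ∈ Icc (s - 2) (s + 2), g y := by
        have h1 : ∑ y ∈ Y, g y = ∑ y ∈ Y ∩ Icc (s - 2) (s + 2), g y := by
          symm
          apply sum_subset inter_subset_left
          intro y hy hn
          apply hgz
          intro h
          exact hn (mem_inter.2 ⟨hy, h⟩)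
        rw [h1]
        exact sum_le_sum_of_subset_of_nonneg inter_subset_right fun y _ _ => hg0 y
    _ = g (s + (-2)) + g (s + (-1)) + g (s + 0) + g (s + 1) + g (s + 2) := by
        have : Icc (s - 2) (s + 2) = {s + (-2), s + (-1), s + 0, s + 1, s + 2} := by
          ext a
          simp only [mem_Icc, mem_insert, mem_singleton]
          omega
        rw [this]
        rw [sum_insert, sum_insert, sum_insert, sum_insert, sum_singleton]
        · ring
        all_goals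
          simp only [mem_insert, mem_singleton]
          omega
    _ = 9 * z - 5 * z ^ 2 + z ^ 3 := by
        rw [hcard, hcard, hcard, hcard, hcard]
        norm_num
        ring
    _ ≤ _ := le_rfl

end Pool.Agent.Helper95.BR
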