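import Mathlib
import Pool.Agent.Helper95.BR.Fin

/-! # Extinction for range one -/

namespace Pool.Agent.Helper95.BR

open Finset MeasureTheory

theorem trans_eq {μ : ℝ} {R : ℕ} {S T : Finset ℤ} (h : T ⊆ nbhd R S) :
    trans μ R S T = W (nbhd R S) (occ μ R S) T := by
  rw [trans, if_pos h, W]

theorem trans_nonneg {μ : ℝ} (hμ : 0 < μ) (R : ℕ) (S T : Finset ℤ) : 0 ≤ trans μ R S T := by
  by_cases h : T ⊆ nbhd R S
  · rw [trans_eq h]
    refine W_nonneg (occ_nonneg hμ R S) (fun x => (occ_le μ R S x).trans ?_) T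
    linarith [z_lt]
  · rw [trans, if_neg h]

/-- Probability of being alive after `k` steps from `S`. -/
noncomputable def alive (μ : ℝ) (R : ℕ) : ℕ → Finset ℤ → ℝ
  | 0, S => if S = ∅ then 0 else 1
  | k + 1, S => ∑ T ∈ (nbhd R S).powerset, trans μ R S T * alive μ R k T

theorem alive_nonneg {μ : ℝ} (hμ : 0 < μ) (R : ℕ) : ∀ k S, 0 ≤ alive μ R k S := by
  intro k
  induction k with
  | zero => intro S; unfold alive; split_ifs <;> norm_num
  | succ k ih =>
    intro S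
    unfold alive
    exact sum_nonneg fun T _ => mul_nonneg (trans_nonneg hμ R S T) (ih T)

theorem alive_zero_le (μ : ℝ) (R : ℕ) (S : Finset ℤ) : alive μ R 0 S ≤ S.card := by
  unfold alive
  split_ifs with h
  · positivity
  · have : 1 ≤ S.card := Finset.card_pos.2 (Finset.nonempty_iff_ne_empty.2 h)
    exact_mod_cast this

/-- one step -/
theorem one_step {μ : ℝ} (hμ : 0 < μ) (R : ℕ) (S : Finset ℤ) (g : Finset ℤ → ℝ) {C : ℝ}
    (hC : 0 ≤ C) (hg : ∀ T, g T ≤ C * T.card) :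
    ∑ T ∈ (nbhd R S).powerset, trans μ R S T * g T ≤ C * z * ((nbhd R S).card : ℝ) := by
  calc ∑ T ∈ (nbhd R S).powerset, trans μ R S T * g T
      ≤ ∑ T ∈ (nbhd R S).powerset, C * (W (nbhd R S) (occ μ R S) T * (T.card : ℝ)) := by
        apply sum_le_sum
        intro T hT
        rw [← trans_eq (mem_powerset.1 hT)]
        have h1 := mul_le_mul_of_nonneg_left (hg T) (trans_nonneg hμ R S T)
        linarith
    _ = C * ∑ x ∈ nbhd R S, occ μ R S x := by rw [← mul_sum, mean_card]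
    _ ≤ C * ∑ x ∈ nbhd R S, z :=
        mul_le_mul_of_nonneg_left (sum_le_sum fun x _ => occ_le μ R S x) hC
    _ = C * z * ((nbhd R S).card : ℝ) := by rw [sum_const, nsmul_eq_mul]; ring

theorem subadd {q : ℝ} (h0 : 0 ≤ q) (h1 : q ≤ 1) (a b : ℕ) :
    1 - q ^ (a + b) ≤ (1 - q ^ a) + (1 - q ^ b) := by
  have ha : 0 ≤ 1 - q ^ a := by linarith [pow_le_one₀ h0 h1 (n := a)]
  have hb : 0 ≤ 1 - q ^ b := by linarith [pow_le_one₀ h0 h1 (n := b)]
  have := mul_nonneg ha hb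
  rw [pow_add]
  nlinarith

theorem union_bound {q : ℝ} (h0 : 0 ≤ q) (h1 : q ≤ 1) (B : Finset ℤ) (F : ℤ → Finset ℤ)
    (S : Finset ℤ) :
    1 - q ^ (S.biUnion F ∩ B).card ≤ ∑ s ∈ S, (1 - q ^ (F s ∩ B).card) := by
  induction S using Finset.induction_on with
  | empty => simp
  | insert a S ha ih =>
    rw [sum_insert ha, biUnion_insert, union_inter_distrib_right]
    have hc : ((F a ∩ B) ∪ (S.biUnion F ∩ B)).card ≤ (F a ∩ B).card + (S.biUnion F ∩ B).card :=
      card_union_le _ _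
    have h2 := pow_le_pow_of_le_one h0 h1 hc
    have h3 := subadd h0 h1 (F a ∩ B).card (S.biUnion F ∩ B).card
    linarith

theorem two_step {μ : ℝ} (hμ : 0 < μ) (S : Finset ℤ) :
    ∑ T ∈ (nbhd 1 S).powerset, trans μ 1 S T * ((nbhd 1 T).card : ℝ) ≤
      (9 * z - 5 * z ^ 2 + z ^ 3) * S.card := by
  have hz0 := z_pos
  have hz1 := z_lt
  calc ∑ T ∈ (nbhd 1 S).powerset, trans μ 1 S T * ((nbhd 1 T).card : ℝ)
      = ∑ T ∈ (nbhd 1 S).powerset, W (nbhd 1 S) (occ μ 1 S) T * ((nbhd 1 T).card : ℝ) :=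
        sum_congr rfl fun T hT => by rw [trans_eq (mem_powerset.1 hT)]
    _ = ∑ y ∈ nbhd 1 (nbhd 1 S), (1 - ∏ x ∈ nbhd 1 S ∩
          Icc (y - ((1 : ℕ) : ℤ)) (y + ((1 : ℕ) : ℤ)), (1 - occ μ 1 S x)) := mean_nbhd _ _ _
    _ ≤ ∑ y ∈ nbhd 1 (nbhd 1 S), (1 - (1 - z) ^ (nbhd 1 S ∩
          Icc (y - ((1 : ℕ) : ℤ)) (y + ((1 : ℕ) : ℤ))).card) := by
        apply sum_le_sum
        intro y _
        have : (1 - z) ^ (nbhd 1 S ∩ Icc (y - ((1 : ℕ) : ℤ)) (y + ((1 : ℕ) : ℤ))).card ≤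
            ∏ x ∈ nbhd 1 S ∩ Icc (y - ((1 : ℕ) : ℤ)) (y + ((1 : ℕ) : ℤ)), (1 - occ μ 1 S x) := by
          rw [← prod_const]
          apply prod_le_prod
          · intro x _; linarith
          · intro x _; linarith [occ_le μ 1 S x]
        linarith
    _ ≤ ∑ y ∈ nbhd 1 (nbhd 1 S), ∑ s ∈ S, (1 - (1 - z) ^
          (Icc (s - ((1 : ℕ) : ℤ)) (s + ((1 : ℕ) : ℤ)) ∩
            Icc (y - ((1 : ℕ) : ℤ)) (y + ((1 : ℕ) : ℤ))).card) := by
        apply sum_le_sum
        intro y _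
        exact union_bound (by linarith) (by linarith) _
          (fun s => Icc (s - ((1 : ℕ) : ℤ)) (s + ((1 : ℕ) : ℤ))) S
    _ = ∑ s ∈ S, ∑ y ∈ nbhd 1 (nbhd 1 S), (1 - (1 - z) ^
          (Icc (s - ((1 : ℕ) : ℤ)) (s + ((1 : ℕ) : ℤ)) ∩
            Icc (y - ((1 : ℕ) : ℤ)) (y + ((1 : ℕ) : ℤ))).card) := sum_comm
    _ ≤ ∑ s ∈ S, (9 * z - 5 * z ^ 2 + z ^ 3) := sum_le_sum fun s _ => five s _
    _ = (9 * z - 5 * z ^ 2 + z ^ 3) * S.card := by rw [sum_const, nsmul_eq_mul]; ring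

/-- The two-step factor. -/
noncomputable def c : ℝ := z * (9 * z - 5 * z ^ 2 + z ^ 3)

theorem c_nonneg : 0 ≤ c := by
  have hz0 := z_pos
  have hz1 := z_lt
  unfold c
  have : 0 ≤ 9 * z - 5 * z ^ 2 + z ^ 3 := by nlinarith [pow_pos hz0 3, mul_pos hz0 hz0]
  positivity

theorem c_lt : c < 1 := by
  have hz0 := z_pos
  have hz1 := z_lt
  unfold c
  have h2 : z ^ 2 ≤ 0.3679 * z := by nlinarith
  have e : z * (9 * z - 5 * z ^ 2 + z ^ 3) = z ^ 2 * (9 - 5 * z + z ^ 2) := by ring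
  rw [e]
  have hz2 : z ^ 2 < 0.3679 ^ 2 := by nlinarith
  -- the function is increasing on the range
  have key : 0 ≤ (0.3679 - z) *
      (9 * (0.3679 + z) - 5 * (0.3679 ^ 2 + 0.3679 * z + z ^ 2) +
        (0.3679 + z) * (0.3679 ^ 2 + z ^ 2)) := by
    apply mul_nonneg (by linarith)
    nlinarith [mul_pos hz0 hz0, pow_pos hz0 3]
  have e2 : (0.3679 - z) *
      (9 * (0.3679 + z) - 5 * (0.3679 ^ 2 + 0.3679 * z + z ^ 2) +
        (0.3679 + z) * (0.3679 ^ 2 + z ^ 2)) =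
      (0.3679 ^ 2 * (9 - 5 * 0.3679 + 0.3679 ^ 2)) - z ^ 2 * (9 - 5 * z + z ^ 2) := by ring
  rw [e2] at key
  have : (0.3679 : ℝ) ^ 2 * (9 - 5 * 0.3679 + 0.3679 ^ 2) < 1 := by norm_num
  linarith

theorem alive_le {μ : ℝ} (hμ : 0 < μ) : ∀ k S, alive μ 1 (2 * k) S ≤ c ^ k * S.card := by
  intro k
  induction k with
  | zero => intro S; simpa using alive_zero_le μ 1 S
  | succ k ih =>
    intro S
    have hc := pow_nonneg c_nonneg k
    have hz0 := z_pos
    have step : ∀ T, alive μ 1 (2 * k + 1) T ≤ c ^ k * z * ((nbhd 1 T).card : ℝ) := by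
      intro T
      have := one_step hμ 1 T (alive μ 1 (2 * k)) hc ih
      simpa [alive] using this
    show ∑ T ∈ (nbhd 1 S).powerset, trans μ 1 S T * alive μ 1 (2 * k + 1) T ≤ _
    calc ∑ T ∈ (nbhd 1 S).powerset, trans μ 1 S T * alive μ 1 (2 * k + 1) T
        ≤ ∑ T ∈ (nbhd 1 S).powerset, (c ^ k * z) * (trans μ 1 S T * ((nbhd 1 T).card : ℝ)) := by
          apply sum_le_sum
          intro T _
          have := mul_le_mul_of_nonneg_left (step T) (trans_nonneg hμ 1 S T)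
          linarith
      _ = (c ^ k * z) * ∑ T ∈ (nbhd 1 S).powerset, trans μ 1 S T * ((nbhd 1 T).card : ℝ) := by
          rw [mul_sum]
      _ ≤ (c ^ k * z) * ((9 * z - 5 * z ^ 2 + z ^ 3) * S.card) :=
          mul_le_mul_of_nonneg_left (two_step hμ S) (by positivity)
      _ = c ^ (k + 1) * S.card := by rw [pow_succ, c]; ring

/-! ### The process -/

variable {Ω : Type*} [MeasurableSpace Ω] {P : Measure Ω} {μ : ℝ} {R : ℕ} {η : ℕ → Ω → Finset ℤ}

theorem proc (hμ : 0 < μ) (h : IsBARW P μ R η) : ∀ (k n : ℕ) (s : ℕ → Finset ℤ),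
    P {ω | (∀ i ≤ n, η i ω = s i) ∧ η (n + k) ω ≠ ∅} ≤
      P {ω | ∀ i ≤ n, η i ω = s i} * ENNReal.ofReal (alive μ R k (s n)) := by
  intro k
  induction k with
  | zero =>
    intro n s
    by_cases hs : s n = ∅
    · have : {ω | (∀ i ≤ n, η i ω = s i) ∧ η (n + 0) ω ≠ ∅} = ∅ := by
        ext ω
        simp only [Set.mem_ofPred_eq, Set.mem_empty_iff_false, iff_false, not_and, not_not]
        intro hi
        rw [add_zero, hi n le_rfl, hs]
      rw [this]; simp
    · have : alive μ R 0 (s n) = 1 := by unfold alive; rw [if_neg hs]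
      rw [this, ENNReal.ofReal_one, mul_one]
      exact measure_mono fun ω hω => hω.1
  | succ k ih =>
    intro n s
    let s' : Finset ℤ → ℕ → Finset ℤ := fun T i => if i ≤ n then s i else T
    have hcov : {ω | (∀ i ≤ n, η i ω = s i) ∧ η (n + (k + 1)) ω ≠ ∅} ⊆
        ⋃ T : Finset ℤ, {ω | (∀ i ≤ n + 1, η i ω = s' T i) ∧ η (n + 1 + k) ω ≠ ∅} := by
      intro ω hω
      rw [Set.mem_iUnion]
      refine ⟨η (n + 1) ω, fun i hi => ?_, ?_⟩
      · by_cases hin : i ≤ n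
        · simp only [s', if_pos hin]; exact hω.1 i hin
        · have : i = n + 1 := by omega
          subst this
          simp only [s', if_neg hin]
      · rw [show n + 1 + k = n + (k + 1) by omega]; exact hω.2
    have hterm : ∀ T : Finset ℤ,
        P {ω | (∀ i ≤ n + 1, η i ω = s' T i) ∧ η (n + 1 + k) ω ≠ ∅} ≤
          P {ω | ∀ i ≤ n, η i ω = s i} *
            ENNReal.ofReal (trans μ R (s n) T * alive μ R k T) := by
      intro T
      refine (ih (n + 1) (s' T)).trans ?_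
      have h1 : s' T (n + 1) = T := by simp [s']
      have h2 : s' T n = s n := by simp [s']
      have h3 : {ω | ∀ i ≤ n, η i ω = s' T i} = {ω | ∀ i ≤ n, η i ω = s i} := by
        ext ω
        refine ⟨fun hh i hi => ?_, fun hh i hi => ?_⟩
        · rw [hh i hi]; simp [s', hi]
        · rw [hh i hi]; simp [s', hi]
      rw [h.markov n (s' T), h1, h2, h3, mul_assoc,
        ← ENNReal.ofReal_mul (trans_nonneg hμ R (s n) T)]
    calc P {ω | (∀ i ≤ n, η i ω = s i) ∧ η (n + (k + 1)) ω ≠ ∅}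
        ≤ ∑' T : Finset ℤ, P {ω | (∀ i ≤ n + 1, η i ω = s' T i) ∧ η (n + 1 + k) ω ≠ ∅} :=
          (measure_mono hcov).trans (measure_iUnion_le _)
      _ ≤ ∑' T : Finset ℤ, P {ω | ∀ i ≤ n, η i ω = s i} *
            ENNReal.ofReal (trans μ R (s n) T * alive μ R k T) :=
          ENNReal.tsum_le_tsum hterm
      _ = P {ω | ∀ i ≤ n, η i ω = s i} *
            ∑' T : Finset ℤ, ENNReal.ofReal (trans μ R (s n) T * alive μ R k T) :=
          ENNReal.tsum_mul_left
      _ = P {ω | ∀ i ≤ n, η i ω = s i} * ENNReal.ofReal (alive μ R (k + 1) (s n)) := by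
          congr 1
          rw [tsum_eq_sum (s := (nbhd R (s n)).powerset)]
          · rw [← ENNReal.ofReal_sum_of_nonneg]
            · rfl
            · intro T _
              exact mul_nonneg (trans_nonneg hμ R _ _) (alive_nonneg hμ R _ _)
          · intro T hT
            rw [mem_powerset] at hT
            rw [trans, if_neg hT, zero_mul, ENNReal.ofReal_zero]

theorem extinct (hμ : 0 < μ) [IsProbabilityMeasure P] (h : IsBARW P μ 1 η) :
    P {ω | ∀ n, η n ω ≠ ∅} = 0 := by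
  have hb : ∀ k, P {ω | ∀ n, η n ω ≠ ∅} ≤ ENNReal.ofReal (c ^ k) := by
    intro k
    have h0 : P {ω | η 0 ω = {0}}ᶜ = 0 := by
      rw [prob_compl_eq_zero_iff (h.meas 0 {0})]
      exact h.start
    have h1 : {ω | ∀ n, η n ω ≠ ∅} ⊆
        {ω | (∀ i ≤ 0, η i ω = (fun _ => ({0} : Finset ℤ)) i) ∧ η (0 + 2 * k) ω ≠ ∅} ∪
          {ω | η 0 ω = {0}}ᶜ := by
      intro ω hω
      by_cases hh : η 0 ω = {0}
      · left
        refine ⟨fun i hi => ?_, hω _⟩
        have : i = 0 := by omega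
        subst this
        exact hh
      · right; exact hh
    have h2 := proc hμ h (2 * k) 0 (fun _ => {0})
    have h3 : ENNReal.ofReal (alive μ 1 (2 * k) {0}) ≤ ENNReal.ofReal (c ^ k) := by
      apply ENNReal.ofReal_le_ofReal
      have := alive_le hμ k {0}
      simpa using this
    calc P {ω | ∀ n, η n ω ≠ ∅} ≤ _ := measure_mono h1
      _ ≤ _ := measure_union_le _ _
      _ ≤ ENNReal.ofReal (c ^ k) + 0 := by
          rw [h0]
          refine add_le_add ?_ le_rfl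
          refine h2.trans ?_
          calc P {ω | ∀ i ≤ 0, η i ω = (fun _ => ({0} : Finset ℤ)) i} *
                ENNReal.ofReal (alive μ 1 (2 * k) {0}) ≤ 1 * ENNReal.ofReal (c ^ k) :=
                mul_le_mul' prob_le_one h3
            _ = _ := one_mul _
      _ = _ := add_zero _
  have hlim : Filter.Tendsto (fun k : ℕ => ENNReal.ofReal (c ^ k)) Filter.atTop (nhds 0) := by
    have := tendsto_pow_atTop_nhds_zero_of_lt_one c_nonneg c_lt
    have h2 := ENNReal.tendsto_ofReal this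
    simpa using h2
  exact nonpos_iff_eq_zero.1 (ge_of_tendsto' hlim hb)

end Pool.Agent.Helper95.BR
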