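import Mathlib
import Pool.Agent.Helper95.BR.Main

/-! # Existence of the process -/

namespace Pool.Agent.Helper95.BR

open Finset MeasureTheory

instance : MeasurableSpace (Finset ℤ) := ⊤

instance : MeasurableSingletonClass (Finset ℤ) := ⟨fun _ => trivial⟩

/-- The law of the next configuration. -/
noncomputable def nu (μ : ℝ) (R : ℕ) (S : Finset ℤ) : Measure (Finset ℤ) :=
  ∑ T ∈ (nbhd R S).powerset, ENNReal.ofReal (trans μ R S T) • Measure.dirac T

theorem nu_singleton (μ : ℝ) (R : ℕ) (S T : Finset ℤ) :
    nu μ R S {T} = ENNReal.ofReal (trans μ R S T) := by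
  classical
  unfold nu
  rw [Measure.finsetSum_apply]
  have : ∀ U ∈ (nbhd R S).powerset,
      (ENNReal.ofReal (trans μ R S U) • Measure.dirac U) {T} =
        if U = T then ENNReal.ofReal (trans μ R S U) else 0 := by
    intro U _
    rw [Measure.smul_apply, Measure.dirac_apply' U (measurableSet_singleton T)]
    by_cases h : U = T
    · simp [h]
    · simp [h]
  rw [sum_congr rfl this]
  by_cases hT : T ∈ (nbhd R S).powerset
  · rw [sum_ite_eq' , if_pos hT]
  · rw [sum_ite_eq', if_neg hT, trans, if_neg (by simpa using hT), ENNReal.ofReal_zero]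

theorem nu_prob {μ : ℝ} (hμ : 0 < μ) (R : ℕ) (S : Finset ℤ) : IsProbabilityMeasure (nu μ R S) := by
  constructor
  unfold nu
  rw [Measure.finsetSum_apply]
  have : ∀ U ∈ (nbhd R S).powerset,
      (ENNReal.ofReal (trans μ R S U) • Measure.dirac U) Set.univ =
        ENNReal.ofReal (trans μ R S U) := by
    intro U _
    rw [Measure.smul_apply, measure_univ, smul_eq_mul, mul_one]
  rw [sum_congr rfl this, ← ENNReal.ofReal_sum_of_nonneg fun T _ => trans_nonneg hμ R S T]
  rw [sum_congr rfl fun T hT => trans_eq (μ := μ) (mem_powerset.1 hT), total, ENNReal.ofReal_one]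

/-- The process built from independent moves. -/
def path (ω : ℕ × Finset ℤ → Finset ℤ) : ℕ → Finset ℤ
  | 0 => {0}
  | n + 1 => ω (n, path ω n)

theorem path_iff (ω : ℕ × Finset ℤ → Finset ℤ) (s : ℕ → Finset ℤ) (hs : s 0 = {0}) (n : ℕ) :
    (∀ i ≤ n, path ω i = s i) ↔ ∀ i < n, ω (i, s i) = s (i + 1) := by
  induction n with
  | zero =>
    constructor
    · intro _ i hi; omega
    · intro _ i hi
      have : i = 0 := by omega
      subst this
      exact hs.symm
  | succ n ih =>
    constructor
    · intro h i hi
      have h1 := ih.1 (fun j hj => h j (by omega))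
      by_cases hin : i < n
      · exact h1 i hin
      · have : i = n := by omega
        subst this
        have h2 := h (i + 1) le_rfl
        have h3 := h i (by omega)
        rw [path, h3] at h2
        exact h2
    · intro h i hi
      have h1 := ih.2 (fun j hj => h j (by omega))
      by_cases hin : i ≤ n
      · exact h1 i hin
      · have : i = n + 1 := by omega
        subst this
        rw [path, h1 n le_rfl]
        exact h n (by omega)

theorem exists_barw {μ : ℝ} (hμ : 0 < μ) (R : ℕ) :
    ∃ (Ω : Type) (_ : MeasurableSpace Ω) (P : Measure Ω) (_ : IsProbabilityMeasure P)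
      (η : ℕ → Ω → Finset ℤ), IsBARW P μ R η := by
  classical
  have : ∀ i : ℕ × Finset ℤ, IsProbabilityMeasure (nu μ R i.2) := fun i => nu_prob hμ R i.2
  let P : Measure (ℕ × Finset ℤ → Finset ℤ) :=
    Measure.infinitePi (fun i : ℕ × Finset ℤ => nu μ R i.2)
  have hP : IsProbabilityMeasure P := inferInstance
  have hmeas : ∀ n, Measurable (fun ω : ℕ × Finset ℤ → Finset ℤ => path ω n) := by
    intro n
    induction n with
    | zero => exact measurable_const
    | succ n ih =>
      intro B _
      have : (fun ω : ℕ × Finset ℤ → Finset ℤ => path ω (n + 1)) ⁻¹' B =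
          ⋃ T : Finset ℤ, ({ω | path ω n = T} ∩ {ω | ω (n, T) ∈ B}) := by
        ext ω
        simp only [Set.mem_preimage, Set.mem_iUnion, Set.mem_inter_iff, Set.mem_ofPred_eq]
        constructor
        · intro h; exact ⟨path ω n, rfl, h⟩
        · rintro ⟨T, h1, h2⟩
          subst h1
          exact h2
      rw [this]
      refine MeasurableSet.iUnion fun T => MeasurableSet.inter ?_ ?_
      · exact ih (measurableSet_singleton T)
      · exact (measurable_pi_apply (n, T)) (show MeasurableSet B from trivial)
  have hprob : ∀ (n : ℕ) (s : ℕ → Finset ℤ), s 0 = {0} →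
      P {ω | ∀ i ≤ n, path ω i = s i} =
        ∏ i ∈ range n, ENNReal.ofReal (trans μ R (s i) (s (i + 1))) := by
    intro n s hs
    have hinj : Set.InjOn (fun i : ℕ => (i, s i)) (range n : Finset ℕ) := by
      intro a _ b _ hab
      exact (Prod.mk.inj hab).1
    have hset : {ω : ℕ × Finset ℤ → Finset ℤ | ∀ i ≤ n, path ω i = s i} =
        Set.pi ((range n).image fun i : ℕ => (i, s i) : Finset (ℕ × Finset ℤ))
          (fun j => {s (j.1 + 1)}) := by
      ext ω
      rw [Set.mem_ofPred_eq, path_iff ω s hs n]
      simp only [Set.mem_pi, Finset.coe_image, Set.mem_image, Finset.mem_coe, Finset.mem_range,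
        Set.mem_singleton_iff]
      constructor
      · rintro h j ⟨i, hi, rfl⟩
        exact h i hi
      · intro h i hi
        exact h (i, s i) ⟨i, hi, rfl⟩
    rw [hset, Measure.infinitePi_pi _ (fun j _ => measurableSet_singleton _),
      Finset.prod_image hinj]
    exact prod_congr rfl fun i _ => nu_singleton μ R (s i) (s (i + 1))
  refine ⟨_, inferInstance, P, hP, fun n ω => path ω n, ?_, ?_, ?_⟩
  · intro n S
    exact hmeas n (measurableSet_singleton S)
  · have : {ω : ℕ × Finset ℤ → Finset ℤ | path ω 0 = {0}} = Set.univ := by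
      ext ω; simp [path]
    rw [this, measure_univ]
  · intro n s
    by_cases hs : s 0 = {0}
    · rw [hprob (n + 1) s hs, hprob n s hs, prod_range_succ]
    · have h1 : ∀ m, {ω : ℕ × Finset ℤ → Finset ℤ | ∀ i ≤ m, path ω i = s i} = ∅ := by
        intro m
        ext ω
        simp only [Set.mem_ofPred_eq, Set.mem_empty_iff_false, iff_false, not_forall]
        refine ⟨0, Nat.zero_le _, fun h => hs ?_⟩
        rw [← h]; rfl
      rw [h1, h1]; simp

end Pool.Agent.Helper95.BR
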